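import Pool.Agent.D0H77.Kraw5

/-!
# All Leonard triples extending the Krawtchouk Leonard pair of `sl₂`
-/

set_option autoImplicit false

namespace Pool.Agent.Results.MP_f4f39d_al.Classification

open Matrix

section Defs

variable {K : Type*} [Field K]

/-- A square matrix is irreducible tridiagonal: the entries `(i, j)` with `|i - j| > 1` are zero and
the entries with `|i - j| = 1` are nonzero. -/
def IsIrredTridiagonal {n : ℕ} (M : Matrix (Fin n) (Fin n) K) : Prop :=
  ∀ i j : Fin n,
    (((i : ℕ) + 1 < (j : ℕ) ∨ (j : ℕ) + 1 < (i : ℕ)) → M i j = 0) ∧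
    (((i : ℕ) + 1 = (j : ℕ) ∨ (j : ℕ) + 1 = (i : ℕ)) → M i j ≠ 0)

/-- In some basis of `V` the map `X` is represented by a diagonal matrix and the maps `Y` and `Z`
are represented by irreducible tridiagonal matrices. -/
def HasBasis {V : Type*} [AddCommGroup V] [Module K V] (X Y Z : Module.End K V) : Prop :=
  ∃ (n : ℕ) (b : Module.Basis (Fin n) K V), (LinearMap.toMatrix b b X).IsDiag ∧
    IsIrredTridiagonal (LinearMap.toMatrix b b Y) ∧ IsIrredTridiagonal (LinearMap.toMatrix b b Z)

/-- `X, Y, Z` is a Leonard triple on `V`: each of the three maps is diagonal in some basis in which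
the other two are irreducible tridiagonal. -/
def IsLeonardTriple {V : Type*} [AddCommGroup V] [Module K V] (X Y Z : Module.End K V) : Prop :=
  HasBasis X Y Z ∧ HasBasis Y X Z ∧ HasBasis Z X Y

variable (K) (d : ℕ)

/-- The matrix `A` of the problem: `A_{i,i+1} = d - i`, `A_{i+1,i} = i + 1`, all other entries `0`. -/
def A : Matrix (Fin (d + 1)) (Fin (d + 1)) K :=
  Matrix.of fun i j => if (i : ℕ) + 1 = (j : ℕ) then (d : K) - (i : ℕ)
    else if (j : ℕ) + 1 = (i : ℕ) then ((j : ℕ) : K) + 1 else 0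

/-- The matrix `A^* = diag(d, d - 2, …, -d)` of the problem. -/
def Astar : Matrix (Fin (d + 1)) (Fin (d + 1)) K := Matrix.diagonal fun i => (d : K) - 2 * (i : ℕ)

end Defs

/-- The matrices which extend the Krawtchouk Leonard pair `A, A*` to a Leonard triple. -/
theorem result {K : Type*} [Field K] [CharZero K] [IsAlgClosed K] (d : ℕ)
    (M : Matrix (Fin (d + 1)) (Fin (d + 1)) K) :
    IsLeonardTriple (Matrix.toLin' (A K d)) (Matrix.toLin' (Astar K d)) (Matrix.toLin' M) ↔
      d = 0 ∨
      (∃ x y z s : K, y ^ 2 ≠ 4 * s ^ 2 ∧ z ^ 2 ≠ 4 * s ^ 2 ∧ y ^ 2 + z ^ 2 ≠ 4 * s ^ 2 ∧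
        M = x • (1 : Matrix (Fin (d + 1)) (Fin (d + 1)) K) + y • A K d + z • Astar K d +
          s • (Astar K d * A K d - A K d * Astar K d)) ∨
      (d = 2 ∧ ∃ x u v : K, u ≠ 0 ∧ v ≠ 0 ∧
        M = x • (1 : Matrix (Fin (d + 1)) (Fin (d + 1)) K) + u • (A K d * Astar K d) +
          v • (Astar K d * A K d)) :=
  Pool.Agent.D0H77.classification d M

end Pool.Agent.Results.MP_f4f39d_al.Classification
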