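import Pool.Agent.D0H77.Kraw5

/-!
# Commutators of the Leonard triples extending the Krawtchouk Leonard pair of `sl₂`
-/

set_option autoImplicit false

namespace Pool.Agent.Results.MP_f4f39d_al.CommutatorSpan

open Matrix

section Defs

variable {K : Type*} [Field K]

/-- A square matrix is irreducible tridiagonal: the entries `(i, j)` with `|i - j| > 1` are zero and
the entries with `|i - j| = 1` are nonzero. -/
def IsIrredTridiagonal {n : ℕ} (M : Matrix (Fin n) (Fin n) K) : Prop :=
  ∀ i j : Fin n,
    (((i : ℕ) + 1 < (j : ℕ) ∨ (j : ℕ) + 1 < (i : ℕ)) → M i j = 0) ∧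
    (((i : ℕ) + 1 = (j : ℕ) ∨ (j : ℕ) + 1 = (i : ℕ)) → M i j ≠ 0)

/-- In some basis of `V` the map `X` is represented by a diagonal matrix and the maps `Y` and `Z`
are represented by irreducible tridiagonal matrices. -/
def HasBasis {V : Type*} [AddCommGroup V] [Module K V] (X Y Z : Module.End K V) : Prop :=
  ∃ (n : ℕ) (b : Module.Basis (Fin n) K V), (LinearMap.toMatrix b b X).IsDiag ∧
    IsIrredTridiagonal (LinearMap.toMatrix b b Y) ∧ IsIrredTridiagonal (LinearMap.toMatrix b b Z)

/-- `X, Y, Z` is a Leonard triple on `V`: each of the three maps is diagonal in some basis in which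
the other two are irreducible tridiagonal. -/
def IsLeonardTriple {V : Type*} [AddCommGroup V] [Module K V] (X Y Z : Module.End K V) : Prop :=
  HasBasis X Y Z ∧ HasBasis Y X Z ∧ HasBasis Z X Y

variable (K) (d : ℕ)

/-- The matrix `A` of the problem: `A_{i,i+1} = d - i`, `A_{i+1,i} = i + 1`, all other entries `0`. -/
def A : Matrix (Fin (d + 1)) (Fin (d + 1)) K :=
  Matrix.of fun i j => if (i : ℕ) + 1 = (j : ℕ) then (d : K) - (i : ℕ)
    else if (j : ℕ) + 1 = (i : ℕ) then ((j : ℕ) : K) + 1 else 0

/-- The matrix `A^* = diag(d, d - 2, …, -d)` of the problem. -/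
def Astar : Matrix (Fin (d + 1)) (Fin (d + 1)) K := Matrix.diagonal fun i => (d : K) - 2 * (i : ℕ)

variable {K} {d}

/-- The linear span of `I, A, A^*, M`. -/
def spanOf (M : Matrix (Fin (d + 1)) (Fin (d + 1)) K) :
    Submodule K (Matrix (Fin (d + 1)) (Fin (d + 1)) K) :=
  Submodule.span K {1, A K d, Astar K d, M}

/-- The commutator `[X, Y] = X Y - Y X`. -/
def comm (X Y : Matrix (Fin (d + 1)) (Fin (d + 1)) K) : Matrix (Fin (d + 1)) (Fin (d + 1)) K :=
  X * Y - Y * X

/-- `(A, A^*, M)` is a Leonard triple on `K^(d+1)`. -/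
def Triple (M : Matrix (Fin (d + 1)) (Fin (d + 1)) K) : Prop :=
  IsLeonardTriple (Matrix.toLin' (A K d)) (Matrix.toLin' (Astar K d)) (Matrix.toLin' M)

/-- The three commutators `[A, A^*]`, `[A^*, M]`, `[M, A]` lie in the span of `I, A, A^*, M`. -/
def CommutatorsInSpan (M : Matrix (Fin (d + 1)) (Fin (d + 1)) K) : Prop :=
  comm (A K d) (Astar K d) ∈ spanOf M ∧ comm (Astar K d) M ∈ spanOf M ∧ comm M (A K d) ∈ spanOf M

/-- `M = x I + y A + z A^* + s [A, A^*]` with `s ≠ 0`. -/
def HasForm (M : Matrix (Fin (d + 1)) (Fin (d + 1)) K) : Prop :=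
  ∃ x y z s : K, s ≠ 0 ∧ M = x • 1 + y • A K d + z • Astar K d + s • comm (A K d) (Astar K d)

end Defs

/-- For every `d ≥ 1` the triple `A, A*, A + A*` is a Leonard triple, and `[A, A*]` is not in the
span of `I, A, A*, A + A*`. For an arbitrary Leonard triple `A, A*, M` the three commutators lie in
the span of `I, A, A*, M` if and only if `M = x I + y A + z A* + s [A, A*]` with `s ≠ 0`. -/
theorem result {K : Type*} [Field K] [CharZero K] [IsAlgClosed K] (d : ℕ) (hd : 1 ≤ d) :
    (Triple (A K d + Astar K d) ∧ comm (A K d) (Astar K d) ∉ spanOf (A K d + Astar K d)) ∧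
    ∀ M : Matrix (Fin (d + 1)) (Fin (d + 1)) K, Triple M → (CommutatorsInSpan M ↔ HasForm M) := by
  have hns : ∀ a b c : K, A K d * Astar K d - Astar K d * A K d ≠
      a • (1 : Matrix (Fin (d + 1)) (Fin (d + 1)) K) + b • A K d + c • Astar K d :=
    fun a b c => Pool.Agent.D0H77.comm_not_span hd a b c
  -- membership in the span
  have hmem : ∀ M T : Matrix (Fin (d + 1)) (Fin (d + 1)) K, T ∈ spanOf M ↔
      ∃ a b c e : K, T = a • (1 : Matrix (Fin (d + 1)) (Fin (d + 1)) K) + b • A K d +
        c • Astar K d + e • M := by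
    intro M T
    rw [spanOf, Submodule.mem_span_insert]
    constructor
    · rintro ⟨a, T1, hT1, rfl⟩
      rw [Submodule.mem_span_insert] at hT1
      obtain ⟨b, T2, hT2, rfl⟩ := hT1
      rw [Submodule.mem_span_insert] at hT2
      obtain ⟨c, T3, hT3, rfl⟩ := hT2
      rw [Submodule.mem_span_singleton] at hT3
      obtain ⟨e, rfl⟩ := hT3
      exact ⟨a, b, c, e, by simp only [add_assoc]⟩
    · rintro ⟨a, b, c, e, rfl⟩
      refine ⟨a, b • A K d + (c • Astar K d + e • M), ?_, by simp only [add_assoc]⟩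
      rw [Submodule.mem_span_insert]
      refine ⟨b, c • Astar K d + e • M, ?_, rfl⟩
      rw [Submodule.mem_span_insert]
      exact ⟨c, e • M, Submodule.mem_span_singleton.2 ⟨e, rfl⟩, rfl⟩
  -- the commutation relations
  have hrel1 : Astar K d * (A K d * Astar K d - Astar K d * A K d) -
      (A K d * Astar K d - Astar K d * A K d) * Astar K d = (-4 : K) • A K d := by
    apply Matrix.toLin'.injective
    have h := Pool.Agent.D0H77.rel1 (K := K) (d := d)
    simp only [mul_sub, sub_mul, map_sub, map_smul, Matrix.toLin'_mul]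
    simp only [← Module.End.mul_eq_comp, mul_assoc]
    show _ = (-4 : K) • Pool.Agent.D0H77.XX K d
    have e : Matrix.toLin' (Astar K d) = Pool.Agent.D0H77.YY K d := rfl
    have e' : Matrix.toLin' (A K d) = Pool.Agent.D0H77.XX K d := rfl
    rw [e, e']
    linear_combination (norm := module) (-1 : K) • h
  have hrel2 : (A K d * Astar K d - Astar K d * A K d) * A K d -
      A K d * (A K d * Astar K d - Astar K d * A K d) = (-4 : K) • Astar K d := by
    apply Matrix.toLin'.injective
    have h := Pool.Agent.D0H77.rel2 (K := K) (d := d)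
    simp only [mul_sub, sub_mul, map_sub, map_smul, Matrix.toLin'_mul]
    simp only [← Module.End.mul_eq_comp, mul_assoc]
    show _ = (-4 : K) • Pool.Agent.D0H77.YY K d
    have e : Matrix.toLin' (Astar K d) = Pool.Agent.D0H77.YY K d := rfl
    have e' : Matrix.toLin' (A K d) = Pool.Agent.D0H77.XX K d := rfl
    rw [e, e']
    linear_combination (norm := module) (-1 : K) • h
  refine ⟨⟨?_, ?_⟩, fun M hM => ⟨?_, ?_⟩⟩
  · have h := Pool.Agent.D0H77.triple_of (K := K) (d := d) 0 1 1 0 (by norm_num) (by norm_num)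
      (by norm_num)
    have e : Matrix.toLin' (A K d + Astar K d) = (0 : K) • 1 + (1 : K) • Pool.Agent.D0H77.XX K d +
        (1 : K) • Pool.Agent.D0H77.YY K d + (0 : K) • Pool.Agent.D0H77.ZZ K d := by
      rw [map_add]
      simp only [zero_smul, one_smul, add_zero, zero_add]
      rfl
    show IsLeonardTriple _ _ _
    rw [e]
    exact h
  · rw [hmem, comm]
    rintro ⟨a, b, c, e, h⟩
    exact hns a (b + e) (c + e) (by rw [h]; module)
  · rintro ⟨h, -, -⟩
    rw [hmem, comm] at h
    obtain ⟨a, b, c, e, h⟩ := h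
    have he : e ≠ 0 := by
      rintro rfl
      exact hns a b c (by rw [h]; module)
    refine ⟨-(a / e), -(b / e), -(c / e), 1 / e, one_div_ne_zero he, ?_⟩
    rw [comm, h]
    match_scalars <;> field_simp <;> ring
  · rintro ⟨x, y, z, s, hs, hMx⟩
    rw [comm] at hMx
    have h1 : A K d * Astar K d - Astar K d * A K d = (-(x / s)) •
        (1 : Matrix (Fin (d + 1)) (Fin (d + 1)) K) + (-(y / s)) • A K d +
        (-(z / s)) • Astar K d + (1 / s) • M := by
      rw [hMx]
      match_scalars <;> field_simp <;> ring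
    set Z := A K d * Astar K d - Astar K d * A K d with hZ
    have hZM : Z ∈ spanOf M := (hmem _ _).2 ⟨_, _, _, _, h1⟩
    have hA : A K d ∈ spanOf M := (hmem _ _).2 ⟨0, 1, 0, 0, by module⟩
    have hB : Astar K d ∈ spanOf M := (hmem _ _).2 ⟨0, 0, 1, 0, by module⟩
    refine ⟨hZM, ?_, ?_⟩
    · rw [comm]
      have : Astar K d * M - M * Astar K d = (-y) • Z + (s * (-4)) • A K d := by
        rw [← smul_smul, ← hrel1, hMx, hZ]
        simp only [mul_add, add_mul, mul_sub, sub_mul, mul_smul_comm, smul_mul_assoc, mul_one,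
          one_mul]
        module
      rw [this]
      exact (spanOf M).add_mem ((spanOf M).smul_mem _ hZM) ((spanOf M).smul_mem _ hA)
    · rw [comm]
      have : M * A K d - A K d * M = (-z) • Z + (s * (-4)) • Astar K d := by
        rw [← smul_smul, ← hrel2, hMx, hZ]
        simp only [mul_add, add_mul, mul_sub, sub_mul, mul_smul_comm, smul_mul_assoc, mul_one,
          one_mul]
        module
      rw [this]
      exact (spanOf M).add_mem ((spanOf M).smul_mem _ hZM) ((spanOf M).smul_mem _ hB)

end Pool.Agent.Results.MP_f4f39d_al.CommutatorSpan
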